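import Mathlib
import Pool.Agent.H857R3.Potts.Final

/-!
# MP_82263f_pr: the censoring inequality fails for the ferromagnetic Potts model, for every `q ≥ 3`

For every `q ≥ 3` (and every choice of the colour green) we give a graph on six vertices, an
inverse temperature `β > 0`, a sequence of eight updates and a deterministic censoring of it
(skipping one update) such that, started from the all-green configuration, the censored dynamics
is strictly closer to the Potts measure in total variation than the uncensored dynamics.

The graph has the edges `01, 02, 03, 04, 12, 14, 23` and an isolated vertex `5`; the sequence is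
`4, 1, 0, 4, 0, 4, 2, 1` and the sixth update is skipped; `e^β = 1000 q^4`.
-/

set_option autoImplicit false

open Pool.Agent.H857R3.Potts

namespace Pool.Agent.Results.MP_82263f_pr.PottsCensoringFails

/-- For every number of colours `q ≥ 3` the censoring inequality fails for the ferromagnetic
`q`-state Potts model started from an all-equal configuration. -/
theorem result :
    ∀ q : ℕ, 3 ≤ q → ∀ green : Fin q,
      ∃ (n : ℕ) (G : SimpleGraph (Fin n)) (β : ℝ) (v w : List (Fin n)),
        0 < β ∧ w.Sublist v ∧
        tv (law G β green w) (potts G β) < tv (law G β green v) (potts G β) := by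
  intro q hq green
  have hq' : (3 : ℝ) ≤ q := by exact_mod_cast hq
  have h : Hyp q (1000 * (q : ℝ) ^ 4) := ⟨hq, le_rfl⟩
  refine ⟨6, Gr, Real.log (1000 * (q : ℝ) ^ 4), [4, 1, 0, 4, 0, 4, 2, 1], [4, 1, 0, 4, 0, 2, 1],
    Real.log_pos (by have := h.X1; linarith), by decide, tv_censored_lt h⟩

end Pool.Agent.Results.MP_82263f_pr.PottsCensoringFails
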